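import Pool.Agent.helper62.VN.SpecE

set_option autoImplicit false

open scoped MatrixGroups ContDiff Topology UpperHalfPlane
open UpperHalfPlane MeasureTheory Filter Set

namespace Pool.Agent.VNE

open Pool.Agent.RS Pool.Agent.VQE

/-- the sum of the absolute values of the entries -/
def NCU_n (M : Matrix (Fin 2) (Fin 2) ℝ) : ℝ := |M 0 0| + |M 0 1| + (|M 1 0| + |M 1 1|)

theorem NCU_n0 (M : Matrix (Fin 2) (Fin 2) ℝ) : 0 ≤ NCU_n M := by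
  unfold NCU_n
  positivity

theorem NCU_add (M N : Matrix (Fin 2) (Fin 2) ℝ) : NCU_n (M + N) ≤ NCU_n M + NCU_n N := by
  unfold NCU_n
  simp only [Matrix.add_apply]
  have h1 := abs_add_le (M 0 0) (N 0 0)
  have h2 := abs_add_le (M 0 1) (N 0 1)
  have h3 := abs_add_le (M 1 0) (N 1 0)
  have h4 := abs_add_le (M 1 1) (N 1 1)
  linarith

theorem NCU_abs2 (a b c d : ℝ) : |a * b + c * d| ≤ |a| * |b| + |c| * |d| := by
  have := abs_add_le (a * b) (c * d)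
  rwa [abs_mul, abs_mul] at this

theorem NCU_mul (M N : Matrix (Fin 2) (Fin 2) ℝ) : NCU_n (M * N) ≤ NCU_n M * NCU_n N := by
  unfold NCU_n
  simp only [Matrix.mul_apply, Fin.sum_univ_two]
  have h1 := NCU_abs2 (M 0 0) (N 0 0) (M 0 1) (N 1 0)
  have h2 := NCU_abs2 (M 0 0) (N 0 1) (M 0 1) (N 1 1)
  have h3 := NCU_abs2 (M 1 0) (N 0 0) (M 1 1) (N 1 0)
  have h4 := NCU_abs2 (M 1 0) (N 0 1) (M 1 1) (N 1 1)
  have p : ∀ i j k l : Fin 2, 0 ≤ |M i j| * |N k l| := fun i j k l => by positivity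
  have k1 := p 0 0 1 0
  have k2 := p 0 0 1 1
  have k3 := p 0 1 0 0
  have k4 := p 0 1 0 1
  have k5 := p 1 0 1 0
  have k6 := p 1 0 1 1
  have k7 := p 1 1 0 0
  have k8 := p 1 1 0 1
  linarith

theorem NCU_of (M : Matrix (Fin 2) (Fin 2) ℝ) (e : ℝ) (h : ∀ i j, |M i j| ≤ e) : NCU_n M ≤ 4 * e := by
  unfold NCU_n
  have h1 := h 0 0
  have h2 := h 0 1
  have h3 := h 1 0
  have h4 := h 1 1
  linarith

theorem NCU_sm (s : ℝ) (M : Matrix (Fin 2) (Fin 2) ℝ) : NCU_n (s • M) = |s| * NCU_n M := by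
  unfold NCU_n
  simp only [Matrix.smul_apply, smul_eq_mul, abs_mul]
  ring

theorem NCU_one : NCU_n (1 : Matrix (Fin 2) (Fin 2) ℝ) = 2 := by
  unfold NCU_n
  norm_num

theorem NCU_m1 (D : SL(2, ℝ)) : NCU_n (D.1 - 1) ≤ 4 * nm D := by
  have h : ∀ i j, |(D.1 - 1) i j| ≤ nm D := by
    have h1 : |D.1 0 0 - 1| ≤ nm D := (le_max_left _ _).trans (le_max_left _ _)
    have h2 : |D.1 0 1| ≤ nm D := (le_max_right _ _).trans (le_max_left _ _)
    have h3 : |D.1 1 0| ≤ nm D := (le_max_left _ _).trans (le_max_right _ _)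
    have h4 : |D.1 1 1 - 1| ≤ nm D := (le_max_right _ _).trans (le_max_right _ _)
    intro i j
    fin_cases i <;> fin_cases j
    · simpa using h1
    · simpa using h2
    · simpa using h3
    · simpa using h4
  exact NCU_of _ _ h

theorem NCU_m2 (D : SL(2, ℝ)) : nm D ≤ NCU_n (D.1 - 1) := by
  unfold nm NCU_n
  have h1 := abs_nonneg ((D.1 - 1) 0 0)
  have h2 := abs_nonneg ((D.1 - 1) 0 1)
  have h3 := abs_nonneg ((D.1 - 1) 1 0)
  have h4 := abs_nonneg ((D.1 - 1) 1 1)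
  have e1 : (D.1 - 1) 0 0 = D.1 0 0 - 1 := by simp
  have e2 : (D.1 - 1) 0 1 = D.1 0 1 := by simp
  have e3 : (D.1 - 1) 1 0 = D.1 1 0 := by simp
  have e4 : (D.1 - 1) 1 1 = D.1 1 1 - 1 := by simp
  rw [e1] at h1 ⊢
  rw [e2] at h2 ⊢
  rw [e3] at h3 ⊢
  rw [e4] at h4 ⊢
  refine max_le (max_le ?_ ?_) (max_le ?_ ?_) <;> linarith

theorem NCU_A (B r m δ s : ℝ) (D A W Z : Matrix (Fin 2) (Fin 2) ℝ) (hB : 1 ≤ B) (hr : 0 ≤ r) (hr1 : r ≤ 1)
    (hδ : 0 ≤ δ) (hδm : δ ≤ m) (hδr : δ ≤ B * r) (hs : |s| ≤ m) (h1 : NCU_n (D - 1) ≤ B * δ)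
    (h2 : NCU_n (A - D) ≤ B * (r * δ)) (h3 : NCU_n (W - 1 - Z) ≤ B * (r * |s|)) (h4 : NCU_n Z ≤ B * |s|) :
    NCU_n (A * W - D - Z) ≤ 6 * B ^ 3 * (r * m) ∧ NCU_n (A * W - 1) ≤ 8 * B ^ 3 * m := by
  have hm0 : 0 ≤ m := hδ.trans hδm
  have hB0 : 0 ≤ B := by linarith
  have hs0 := abs_nonneg s
  have hrm : 0 ≤ r * m := mul_nonneg hr hm0
  have hBB : B ≤ B ^ 3 := by nlinarith [sq_nonneg (B - 1), mul_nonneg hB0 (sq_nonneg (B - 1))]
  have hrδ : r * δ ≤ r * m := mul_le_mul_of_nonneg_left hδm hr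
  have hrs : r * |s| ≤ r * m := mul_le_mul_of_nonneg_left hs hr
  have hrδ1 : r * δ ≤ δ := mul_le_of_le_one_left hδ hr1
  have hrs1 : r * |s| ≤ |s| := mul_le_of_le_one_left hs0 hr1
  have a1 : NCU_n (A - 1) ≤ 2 * B ^ 2 * r := by
    have e : A - 1 = (A - D) + (D - 1) := by abel
    have h := NCU_add (A - D) (D - 1)
    rw [← e] at h
    have : B * (r * δ) ≤ B * δ := mul_le_mul_of_nonneg_left hrδ1 hB0
    have h5 : B * δ ≤ B * (B * r) := mul_le_mul_of_nonneg_left hδr hB0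
    have e2 : 2 * B ^ 2 * r = 2 * (B * (B * r)) := by ring
    rw [e2]
    linarith
  have a2 : NCU_n (W - 1) ≤ 2 * B * m := by
    have e : W - 1 = (W - 1 - Z) + Z := by abel
    have h := NCU_add (W - 1 - Z) Z
    rw [← e] at h
    have h5 : B * (r * |s|) ≤ B * m := mul_le_mul_of_nonneg_left (hrs1.trans hs) hB0
    have h6 : B * |s| ≤ B * m := mul_le_mul_of_nonneg_left hs hB0
    linarith
  have a3 : NCU_n ((A - 1) * (W - 1)) ≤ 4 * B ^ 3 * (r * m) := by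
    refine (NCU_mul _ _).trans ((mul_le_mul a1 a2 (NCU_n0 _) (by positivity)).trans (le_of_eq ?_))
    ring
  have e : A * W - D - Z = (A - D) + ((W - 1 - Z) + (A - 1) * (W - 1)) := by
    noncomm_ring
  have h5 : NCU_n (A * W - D - Z) ≤ 6 * B ^ 3 * (r * m) := by
    rw [e]
    have k1 := NCU_add (A - D) ((W - 1 - Z) + (A - 1) * (W - 1))
    have k2 := NCU_add (W - 1 - Z) ((A - 1) * (W - 1))
    have k3 : B * (r * δ) ≤ B ^ 3 * (r * m) := mul_le_mul hBB hrδ (mul_nonneg hr hδ) (by positivity)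
    have k4 : B * (r * |s|) ≤ B ^ 3 * (r * m) := mul_le_mul hBB hrs (mul_nonneg hr hs0) (by positivity)
    linarith
  refine ⟨h5, ?_⟩
  have e3 : A * W - 1 = (A * W - D - Z) + ((D - 1) + Z) := by abel
  rw [e3]
  have k1 := NCU_add (A * W - D - Z) ((D - 1) + Z)
  have k2 := NCU_add (D - 1) Z
  have k3 : B * δ ≤ B ^ 3 * m := mul_le_mul hBB hδm hδ (by positivity)
  have k4 : B * |s| ≤ B ^ 3 * m := mul_le_mul hBB hs hs0 (by positivity)
  have k5 : B ^ 3 * (r * m) ≤ B ^ 3 * m := mul_le_mul_of_nonneg_left (mul_le_of_le_one_left hm0 hr1) (by positivity)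
  linarith

theorem NCU_B (B r m : ℝ) (P Q Cm E : Matrix (Fin 2) (Fin 2) ℝ) (hB : 1 ≤ B) (hr : 0 ≤ r) (hr1 : r ≤ 1)
    (hm0 : 0 ≤ m) (hPC : P * Cm = 1) (hP : NCU_n (P - 1) ≤ B * r) (hQ : NCU_n (Q - 1) ≤ B * r)
    (hQC : NCU_n (Q - Cm) ≤ B * m) (hE : NCU_n (E - 1) ≤ B * m) :
    NCU_n (P * (E * Q) - E - (Q - Cm)) ≤ 5 * B ^ 3 * (r * m) := by
  have hB0 : 0 ≤ B := by linarith
  have hrm : 0 ≤ r * m := mul_nonneg hr hm0
  have hBr : B * r ≤ B := mul_le_of_le_one_right hB0 hr1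
  have hQ2 : NCU_n Q ≤ 3 * B := by
    have e : Q = (Q - 1) + 1 := by abel
    have h := NCU_add (Q - 1) 1
    rw [← e, NCU_one] at h
    linarith
  have e : P * (E * Q) - E - (Q - Cm) = (P - 1) * ((E - 1) * Q) + ((E - 1) * (Q - 1) + (P - 1) * (Q - Cm)) := by
    have e1 : (P - 1) * (Q - Cm) = P * Q - 1 - Q + Cm := by
      rw [sub_mul, mul_sub, hPC, one_mul]
      abel
    rw [e1]
    noncomm_ring
  rw [e]
  have k1 := NCU_add ((P - 1) * ((E - 1) * Q)) ((E - 1) * (Q - 1) + (P - 1) * (Q - Cm))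
  have k2 := NCU_add ((E - 1) * (Q - 1)) ((P - 1) * (Q - Cm))
  have j1 : NCU_n ((P - 1) * ((E - 1) * Q)) ≤ 3 * B ^ 3 * (r * m) := by
    refine (NCU_mul _ _).trans ((mul_le_mul hP ((NCU_mul _ _).trans (mul_le_mul hE hQ2 (NCU_n0 _) (by positivity)))
      (NCU_n0 _) (by positivity)).trans (le_of_eq ?_))
    ring
  have j2 : NCU_n ((E - 1) * (Q - 1)) ≤ B ^ 2 * (r * m) := by
    refine (NCU_mul _ _).trans ((mul_le_mul hE hQ (NCU_n0 _) (by positivity)).trans (le_of_eq ?_))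
    ring
  have j3 : NCU_n ((P - 1) * (Q - Cm)) ≤ B ^ 2 * (r * m) := by
    refine (NCU_mul _ _).trans ((mul_le_mul hP hQC (NCU_n0 _) (by positivity)).trans (le_of_eq ?_))
    ring
  have hBB : B ^ 2 * (r * m) ≤ B ^ 3 * (r * m) := mul_le_mul_of_nonneg_right (by nlinarith [sq_nonneg B]) hrm
  linarith

/-- the functionals -/
def NCU_J (X : Fd) (g : SL(2, ℝ)) (M : Matrix (Fin 2) (Fin 2) ℝ) : ℝ := -(X.p g * (M 0 1 + M 1 0))

noncomputable def NCU_W (X : Fd) (g : SL(2, ℝ)) (M : Matrix (Fin 2) (Fin 2) ℝ) : ℝ :=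
  (M 0 1 - M 1 0) - X.m g * (M 0 1 + M 1 0) + 2 * X.q g * (M 0 0 - M 1 1) / X.p g

theorem NCU_mulle {u v U V : ℝ} (hu : |u| ≤ U) (hv : |v| ≤ V) : |u * v| ≤ U * V := by
  rw [abs_mul]
  exact mul_le_mul hu hv (abs_nonneg _) ((abs_nonneg _).trans hu)

theorem NCU_ent (M : Matrix (Fin 2) (Fin 2) ℝ) : |M 0 1 + M 1 0| ≤ NCU_n M ∧ |M 0 1 - M 1 0| ≤ NCU_n M ∧
    |M 0 0 - M 1 1| ≤ NCU_n M := by
  unfold NCU_n
  have h1 := abs_nonneg (M 0 0)
  have h2 := abs_nonneg (M 0 1)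
  have h3 := abs_nonneg (M 1 0)
  have h4 := abs_nonneg (M 1 1)
  have k1 := abs_add_le (M 0 1) (M 1 0)
  have k2 := abs_sub (M 0 1) (M 1 0)
  have k3 := abs_sub (M 0 0) (M 1 1)
  exact ⟨by linarith, by linarith, by linarith⟩

theorem NCU_bJ (B : ℝ) (X : Fd) (g : SL(2, ℝ)) (M : Matrix (Fin 2) (Fin 2) ℝ) (h : |X.p g| ≤ B) :
    |NCU_J X g M| ≤ B * NCU_n M := by
  unfold NCU_J
  rw [abs_neg]
  exact NCU_mulle h (NCU_ent M).1

theorem NCU_bW (B : ℝ) (X : Fd) (g : SL(2, ℝ)) (M : Matrix (Fin 2) (Fin 2) ℝ) (hB : 1 ≤ B)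
    (hp : 1 / B ≤ X.p g) (hq : |X.q g| ≤ B) (hm : |X.m g| ≤ B) :
    |NCU_W X g M| ≤ 4 * B ^ 2 * NCU_n M := by
  unfold NCU_W
  obtain ⟨e1, e2, e3⟩ := NCU_ent M
  have hn := NCU_n0 M
  have hB0 : 0 < B := by linarith
  have hp0 : 0 < X.p g := lt_of_lt_of_le (by positivity) hp
  have hpi : |(X.p g)⁻¹| ≤ B := by
    rw [abs_of_pos (inv_pos.2 hp0)]
    rw [div_le_iff₀ hB0] at hp
    rw [inv_le_iff_one_le_mul₀ hp0]
    linarith
  have t1 := abs_le.1 e2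
  have t2 := abs_le.1 (NCU_mulle hm e1)
  have t3 := abs_le.1 (NCU_mulle (NCU_mulle hq hpi) e3)
  have e : 2 * X.q g * (M 0 0 - M 1 1) / X.p g = 2 * (X.q g * (X.p g)⁻¹ * (M 0 0 - M 1 1)) := by
    rw [div_eq_mul_inv]
    ring
  rw [e]
  have h1 : NCU_n M ≤ B ^ 2 * NCU_n M := le_mul_of_one_le_left hn (by nlinarith)
  have h2 : B * NCU_n M ≤ B ^ 2 * NCU_n M := mul_le_mul_of_nonneg_right (by nlinarith) hn
  have h3 : B * B * NCU_n M = B ^ 2 * NCU_n M := by ring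
  rw [h3] at t3
  exact abs_le.2 ⟨by linarith, by linarith⟩

theorem NCU_dJ (e : ℝ) (X : Fd) (g g' : SL(2, ℝ)) (M : Matrix (Fin 2) (Fin 2) ℝ) (h : |X.p g' - X.p g| ≤ e) :
    |NCU_J X g' M - NCU_J X g M| ≤ e * NCU_n M := by
  unfold NCU_J
  have e1 : -(X.p g' * (M 0 1 + M 1 0)) - -(X.p g * (M 0 1 + M 1 0)) = -((X.p g' - X.p g) * (M 0 1 + M 1 0)) := by ring
  rw [e1, abs_neg]
  exact NCU_mulle h (NCU_ent M).1

theorem NCU_dW (B e : ℝ) (X : Fd) (g g' : SL(2, ℝ)) (M : Matrix (Fin 2) (Fin 2) ℝ) (hB : 1 ≤ B)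
    (hp : 1 / B ≤ X.p g) (hp1 : X.p g ≤ B) (hp' : 1 / B ≤ X.p g') (hq : |X.q g| ≤ B)
    (h1 : |X.p g' - X.p g| ≤ e) (h2 : |X.q g' - X.q g| ≤ e) (h3 : |X.m g' - X.m g| ≤ e) :
    |NCU_W X g' M - NCU_W X g M| ≤ 5 * B ^ 3 * e * NCU_n M := by
  obtain ⟨e1, e2, e3⟩ := NCU_ent M
  have hn := NCU_n0 M
  have hB0 : 0 < B := by linarith
  have he : 0 ≤ e := (abs_nonneg _).trans h1
  have hp0 : 0 < X.p g := lt_of_lt_of_le (by positivity) hp
  have hp0' : 0 < X.p g' := lt_of_lt_of_le (by positivity) hp'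
  have hpi : |(X.p g)⁻¹| ≤ B := by
    rw [abs_of_pos (inv_pos.2 hp0)]
    rw [div_le_iff₀ hB0] at hp
    rw [inv_le_iff_one_le_mul₀ hp0]
    linarith
  have hpi' : |(X.p g')⁻¹| ≤ B := by
    rw [abs_of_pos (inv_pos.2 hp0')]
    rw [div_le_iff₀ hB0] at hp'
    rw [inv_le_iff_one_le_mul₀ hp0']
    linarith
  have hpa : |X.p g| ≤ B := by rw [abs_of_pos hp0]; exact hp1
  have ee : NCU_W X g' M - NCU_W X g M = -((X.m g' - X.m g) * (M 0 1 + M 1 0)) +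
      2 * (((X.q g' - X.q g) * X.p g - X.q g * (X.p g' - X.p g)) * ((X.p g)⁻¹ * (X.p g')⁻¹) * (M 0 0 - M 1 1)) := by
    unfold NCU_W
    field_simp
    ring
  rw [ee]
  have t2 := abs_le.1 (NCU_mulle h3 e1)
  have t3 : |(X.q g' - X.q g) * X.p g - X.q g * (X.p g' - X.p g)| ≤ 2 * B * e := by
    have k1 := abs_le.1 (NCU_mulle h2 hpa)
    have k2 := abs_le.1 (NCU_mulle hq h1)
    exact abs_le.2 ⟨by linarith, by linarith⟩
  have t4 := abs_le.1 (NCU_mulle (NCU_mulle t3 (NCU_mulle hpi hpi')) e3)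
  have h4 : e * NCU_n M ≤ B ^ 3 * e * NCU_n M := by
    have : 1 ≤ B ^ 3 := one_le_pow₀ hB
    have h5 := le_mul_of_one_le_left (mul_nonneg he hn) this
    linarith
  have h6 : 2 * B * e * (B * B) * NCU_n M = 2 * (B ^ 3 * e * NCU_n M) := by ring
  rw [h6] at t4
  exact abs_le.2 ⟨by linarith, by linarith⟩

/-- the rows used, with one constant -/
structure NCU_F (B ε : ℝ) (X : Fd) : Prop where
  pb : ∀ g, 1 / B ≤ X.p g ∧ X.p g ≤ B ∧ |X.q g| ≤ B ∧ |X.m g| ≤ B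
  lip : ∀ g D, |X.p (g * D) - X.p g| ≤ B * nm D ∧ |X.q (g * D) - X.q g| ≤ B * nm D ∧ |X.m (g * D) - X.m g| ≤ B * nm D
  ch : ∀ (g : SL(2, ℝ)) (J W : ℝ), |J| + |W| ≤ 1 / B → NCU_J X g (pj X g J W).1 = J ∧ NCU_W X g (pj X g J W).1 = W ∧
    (pj X g J W).1 0 0 - (pj X g J W).1 1 1 = 0 ∧ nm (pj X g J W) ≤ B * (|J| + |W|)
  df : ∀ (g E : SL(2, ℝ)) (J W J' W' : ℝ), |J| + |W| ≤ 1 / B → |J'| + |W'| ≤ 1 / B →
    ∀ i j, |(pj X (g * E) J' W').1 i j - (pj X g J W).1 i j| ≤ B * (|J - J'| + |W - W'| + nm E * (|J| + |W|))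
  sm : ∀ (g : SL(2, ℝ)) (r t : ℝ), r ≤ 1 / B → |t| ≤ r → nm (g⁻¹ * X.f t g) ≤ B * |t| ∧
    ∀ i j, |(g⁻¹ * X.f t g).1 i j - (1 : Matrix (Fin 2) (Fin 2) ℝ) i j - t * Xm X g i j| ≤ B * r * |t|
  sd : ∀ (g E : SL(2, ℝ)) (t : ℝ), |t| ≤ 1 / B → nm E ≤ 1 / B → ∀ i j, |((X.f t g)⁻¹ * X.f t (g * E)).1 i j - E.1 i j| ≤ B * |t| * nm E
  s1 : ∀ (g : SL(2, ℝ)) (j : ℝ), |j| ≤ ε / B → |stn ε X g j| ≤ B * |j| ∧ |j| ≤ B * |stn ε X g j| ∧ j * stn ε X g j ≤ 0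
  s2 : ∀ (g : SL(2, ℝ)) (j j' : ℝ), |j| ≤ ε / B → |j'| ≤ ε / B → |stn ε X g j - stn ε X g j'| ≤ B * |j - j'|
  s3 : ∀ (g E : SL(2, ℝ)) (j : ℝ), |j| ≤ ε / B → |stn ε X (g * E) j - stn ε X g j| ≤ B * |j| * nm E
  s4 : ∀ (g : SL(2, ℝ)) (r j1 j2 j3 j4 : ℝ), r ≤ ε / B → |j1| ≤ r → |j2| ≤ r → |j3| ≤ r → |j4| ≤ r →
    |(stn ε X g j1 - stn ε X g j2) * (j3 - j4) - (stn ε X g j3 - stn ε X g j4) * (j1 - j2)| ≤ B * r * (|j1 - j2| * |j3 - j4|)

theorem NCU_dg (b c : ℝ) (h : 0 ≤ 1 + b * c) : (dg b c).1 = !![√(1 + b * c), b; c, √(1 + b * c)] := by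
  unfold dg
  rw [dif_pos h]

theorem NCU_facts (h1 : VQE.NMB_stmt) (h2 : NCH_stmt) (h3 : NSM_stmt) (h4 : NSD_stmt) (h5 : NTP_stmt) (K B0 : ℝ) (hK : 1 ≤ K) (hB0 : 1 ≤ B0) :
    ∃ B ε0 : ℝ, K ≤ B ∧ B0 ≤ B ∧ 0 < ε0 ∧ ∀ (ε : ℝ) (X : Fd), 0 < ε → ε ≤ ε0 → HF K X → NCU_F B ε X := by
  obtain ⟨C2, hC2, H2⟩ := h2 K hK
  obtain ⟨C3, hC3, H3⟩ := h3 K hK
  obtain ⟨C4, hC4, H4⟩ := h4 K hK
  obtain ⟨C5, ε0, hC5, hε0, H5⟩ := h5 K hK
  obtain ⟨B, hBd⟩ : ∃ B, B = K + B0 + C2 + C3 + C4 + C5 := ⟨_, rfl⟩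
  have hBK : K ≤ B := by linarith
  have hBB : B0 ≤ B := by linarith
  have hB2 : C2 ≤ B := by linarith
  have hB3 : C3 ≤ B := by linarith
  have hB4 : C4 ≤ B := by linarith
  have hB5 : C5 ≤ B := by linarith
  have hB : 0 < B := by linarith
  have i2 : 1 / B ≤ 1 / C2 := one_div_le_one_div_of_le (by linarith) hB2
  have i3 : 1 / B ≤ 1 / C3 := one_div_le_one_div_of_le (by linarith) hB3
  have i4 : 1 / B ≤ 1 / C4 := one_div_le_one_div_of_le (by linarith) hB4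
  have iK : 1 / B ≤ 1 / K := one_div_le_one_div_of_le (by linarith) hBK
  refine ⟨B, ε0, hBK, hBB, hε0, ?_⟩
  intro ε X hε hε' hX
  have i5 : ε / B ≤ ε / C5 := div_le_div_of_nonneg_left hε.le (by linarith) hB5
  obtain ⟨a1, a2, a3, a4, a5, -⟩ := H2 X hX
  obtain ⟨b1, b2, b3, b4, -⟩ := H5 ε X hε hε' hX
  have n0 : ∀ D, 0 ≤ nm D := h1.1
  constructor
  · intro g
    obtain ⟨u1, u2⟩ := hX.pb g
    obtain ⟨u3, u4, -⟩ := hX.qb g
    exact ⟨iK.trans u1, u2.trans hBK, u3.trans hBK, u4.trans hBK⟩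
  · intro g D
    obtain ⟨u1, u2, u3, -⟩ := hX.lip g D
    have hKn : K * nm D ≤ B * nm D := mul_le_mul_of_nonneg_right hBK (n0 D)
    exact ⟨u1.trans hKn, u2.trans hKn, u3.trans hKn⟩
  · intro g J W hJW
    obtain ⟨u1, u2, u3, u4⟩ := a1 g J W
    obtain ⟨v1, -, -, -, v5⟩ := a4 g J W (hJW.trans i2)
    have hs : C2 * (|J| + |W|) ≤ 1 := by
      have := mul_le_mul_of_nonneg_left (hJW.trans i2) (by linarith : 0 ≤ C2)
      rwa [mul_one_div_cancel (by linarith : C2 ≠ 0)] at this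
    have hbc : 0 ≤ 1 + bj X g J W * cj X g J W := by
      have := (abs_le.1 (NCU_mulle (u3.trans hs) (u4.trans hs))).1
      linarith
    have hd : (pj X g J W).1 = !![√(1 + bj X g J W * cj X g J W), bj X g J W; cj X g J W, √(1 + bj X g J W * cj X g J W)] := by
      unfold pj
      exact NCU_dg _ _ hbc
    have e01 : (pj X g J W).1 0 1 = bj X g J W := by rw [hd]; simp
    have e10 : (pj X g J W).1 1 0 = cj X g J W := by rw [hd]; simp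
    refine ⟨?_, ?_, ?_, ?_⟩
    · unfold NCU_J
      rw [e01, e10]
      exact u1
    · unfold NCU_W
      rw [e01, e10, v5, sub_self, mul_zero, zero_div, add_zero]
      exact u2
    · rw [v5, sub_self]
    · exact v1.trans (mul_le_mul_of_nonneg_right hB2 (by positivity))
  · intro g E J W J' W' hJ hJ' i j
    obtain ⟨u1, -, -⟩ := a5 g E J W J' W' (hJ.trans i2) (hJ'.trans i2)
    have := n0 E
    exact (u1 i j).trans (mul_le_mul_of_nonneg_right hB2 (by positivity))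
  · intro g r t hr ht
    have hr0 : 0 ≤ r := (abs_nonneg _).trans ht
    obtain ⟨u1, u2⟩ := H3 X hX g r t 0 (hr.trans i3) ht (by rw [abs_zero]; exact hr0)
    refine ⟨u1.trans (mul_le_mul_of_nonneg_right hB3 (abs_nonneg _)), ?_⟩
    intro i j
    have := u2 i j
    rw [hX.flw.zero, inv_mul_cancel, sub_zero] at this
    exact this.trans (mul_le_mul_of_nonneg_right (mul_le_mul_of_nonneg_right hB3 hr0) (abs_nonneg _))
  · intro g E t ht hE i j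
    have := H4 X hX g E t (ht.trans i4) (hE.trans i4) i j
    exact this.trans (mul_le_mul_of_nonneg_right (mul_le_mul_of_nonneg_right hB4 (abs_nonneg _)) (n0 E))
  · intro g j hj
    obtain ⟨-, u1, u2, u3⟩ := b1 g j (hj.trans i5)
    exact ⟨u1.trans (mul_le_mul_of_nonneg_right hB5 (abs_nonneg _)), u2.trans (mul_le_mul_of_nonneg_right hB5 (abs_nonneg _)), u3⟩
  · intro g j j' hj hj'
    exact (b2 g j j' (hj.trans i5) (hj'.trans i5)).trans (mul_le_mul_of_nonneg_right hB5 (abs_nonneg _))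
  · intro g E j hj
    exact (b3 g E j (hj.trans i5)).trans (mul_le_mul_of_nonneg_right (mul_le_mul_of_nonneg_right hB5 (abs_nonneg _)) (n0 E))
  · intro g r j1 j2 j3 j4 hr k1 k2 k3 k4
    have hr0 : 0 ≤ r := (abs_nonneg _).trans k1
    exact (b4 g r j1 j2 j3 j4 (hr.trans i5) k1 k2 k3 k4).trans (mul_le_mul_of_nonneg_right (mul_le_mul_of_nonneg_right hB5 hr0) (by positivity))

theorem NCU_E (B ε : ℝ) (X : Fd) (hB : 1 ≤ B) (hfl : Flw X.p X.q X.f) (n0 : ∀ D, 0 ≤ nm D) (F : NCU_F B ε X)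
    (g D : SL(2, ℝ)) (r m δ t t' : ℝ) (hr : 0 ≤ r) (hr1 : 2 * B ^ 3 * r ≤ 1) (hδ : 0 ≤ δ) (hδm : δ ≤ m)
    (hδr : δ ≤ B * r) (hD : nm D ≤ B * δ) (ht : |t| ≤ r) (hs : |t' - t| ≤ 2 * r) (hsm : |t' - t| ≤ m) :
    ∃ E A : SL(2, ℝ), X.f t' (g * D) = X.f t g * E ∧ nm A ≤ 8 * B ^ 2 * r ∧
      NCU_n (E.1 - D.1 - (t' - t) • Xm X (X.f t g * A)) ≤ 6 * (8 * B ^ 2) ^ 3 * (r * m) ∧
      NCU_n (E.1 - 1) ≤ 8 * (8 * B ^ 2) ^ 3 * m := by
  have hB0 : 0 < B := by linarith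
  have hB2 : B ≤ B ^ 2 := by nlinarith
  have hB3 : B ^ 2 ≤ B ^ 3 := by nlinarith [sq_nonneg B]
  have hBr : B * r ≤ B ^ 2 * r := mul_le_mul_of_nonneg_right hB2 hr
  have hBr2 : B ^ 2 * r ≤ B ^ 3 * r := mul_le_mul_of_nonneg_right hB3 hr
  have hrB : r ≤ B * r := le_mul_of_one_le_left hr hB
  have hr2 : r ≤ 1 := by linarith
  have hmB : ∀ z : ℝ, B * z ≤ 1 → z ≤ 1 / B := by
    intro z hz
    rw [le_div_iff₀ hB0]
    linarith
  have i1 : r ≤ 1 / B := hmB _ (by linarith)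
  have i2 : 2 * r ≤ 1 / B := hmB _ (by linarith)
  have hDr : nm D ≤ B ^ 2 * r := by
    refine hD.trans ((mul_le_mul_of_nonneg_left hδr hB0.le).trans (le_of_eq ?_))
    ring
  have hD1 : nm D ≤ 1 / B := by
    refine hDr.trans (hmB _ ?_)
    have : B * (B ^ 2 * r) = B ^ 3 * r := by ring
    rw [this]
    have := mul_nonneg (pow_nonneg hB0.le 3) hr
    linarith
  have hDn := n0 D
  obtain ⟨A, hA⟩ : ∃ A, A = (X.f t g)⁻¹ * X.f t (g * D) := ⟨_, rfl⟩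
  have hG : X.f t (g * D) = X.f t g * A := by
    rw [hA, mul_inv_cancel_left]
  obtain ⟨W, hW⟩ : ∃ W, W = (X.f t g * A)⁻¹ * X.f (t' - t) (X.f t g * A) := ⟨_, rfl⟩
  have sd := F.sd g D t (ht.trans i1) hD1
  rw [← hA] at sd
  obtain ⟨-, sm⟩ := F.sm (X.f t g * A) (2 * r) (t' - t) i2 hs
  rw [← hW] at sm
  have b1 : NCU_n (D.1 - 1) ≤ 4 * (B * δ) := (NCU_m1 D).trans (by linarith)
  have b2 : NCU_n (A.1 - D.1) ≤ 4 * (B * (B * (r * δ))) := by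
    have : NCU_n (A.1 - D.1) ≤ 4 * (B * |t| * nm D) := NCU_of _ _ (fun i j => sd i j)
    have h5 : B * |t| * nm D ≤ B * r * (B * δ) :=
      mul_le_mul (mul_le_mul_of_nonneg_left ht hB0.le) hD hDn (by positivity)
    have h6 : B * r * (B * δ) = B * (B * (r * δ)) := by ring
    rw [h6] at h5
    linarith
  have b3 : NCU_n (W.1 - 1 - (t' - t) • Xm X (X.f t g * A)) ≤ 8 * (B * (r * |t' - t|)) := by
    have : NCU_n (W.1 - 1 - (t' - t) • Xm X (X.f t g * A)) ≤ 4 * (B * (2 * r) * |t' - t|) :=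
      NCU_of _ _ (fun i j => sm i j)
    linarith
  have b4 : NCU_n ((t' - t) • Xm X (X.f t g * A)) ≤ 3 * (B * |t' - t|) := by
    rw [NCU_sm]
    have hx : NCU_n (Xm X (X.f t g * A)) ≤ 3 * B := by
      obtain ⟨u1, u2, u3, -⟩ := F.pb (X.f t g * A)
      have hp0 : 0 < X.p (X.f t g * A) := lt_of_lt_of_le (by positivity) u1
      unfold NCU_n Xm
      simp only [Matrix.of_apply, Matrix.cons_val', Matrix.cons_val_zero, Matrix.cons_val_one, Matrix.cons_val_fin_one, abs_neg]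
      rw [abs_of_pos (by linarith : 0 < X.p (X.f t g * A) / 2)]
      linarith
    have h0 := abs_nonneg (t' - t)
    have := mul_le_mul_of_nonneg_left hx h0
    linarith
  have bA : nm A ≤ 8 * B ^ 2 * r := by
    have k1 := NCU_m2 A
    have e : A.1 - 1 = (A.1 - D.1) + (D.1 - 1) := by abel
    have k2 := NCU_add (A.1 - D.1) (D.1 - 1)
    rw [← e] at k2
    have k3 : B * (B * (r * δ)) ≤ B * δ := by
      have : B * (B * (r * δ)) = (B * r) * (B * δ) := by ring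
      rw [this]
      exact mul_le_of_le_one_left (by positivity) (by linarith)
    have k4 : B * δ ≤ B ^ 2 * r := (mul_le_mul_of_nonneg_left hδr hB0.le).trans (le_of_eq (by ring))
    linarith
  have hEe : X.f t' (g * D) = X.f t g * (A * W) := by
    rw [hW]
    have : t' = (t' - t) + t := by ring
    conv_lhs => rw [this, hfl.add, hG]
    group
  have hz : 0 ≤ |t' - t| := abs_nonneg _
  have q := NCU_A (8 * B ^ 2) r m δ (t' - t) D.1 A.1 W.1 ((t' - t) • Xm X (X.f t g * A)) (by nlinarith) hr hr2 hδ hδm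
    (hδr.trans (mul_le_mul_of_nonneg_right (by nlinarith) hr)) hsm
    (b1.trans (by
      have : B * δ ≤ B ^ 2 * δ := mul_le_mul_of_nonneg_right hB2 hδ
      have h0 : 0 ≤ B ^ 2 * δ := by positivity
      linarith))
    (b2.trans (by
      have : B * (B * (r * δ)) = B ^ 2 * (r * δ) := by ring
      have h0 : 0 ≤ B ^ 2 * (r * δ) := by positivity
      linarith))
    (b3.trans (by
      have : B * (r * |t' - t|) ≤ B ^ 2 * (r * |t' - t|) := mul_le_mul_of_nonneg_right hB2 (by positivity)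
      linarith))
    (b4.trans (by
      have : B * |t' - t| ≤ B ^ 2 * |t' - t| := mul_le_mul_of_nonneg_right hB2 hz
      have h0 : 0 ≤ B ^ 2 * |t' - t| := by positivity
      linarith))
  exact ⟨A * W, A, hEe, bA, q.1, q.2⟩

theorem NCU_J1 (X : Fd) (g : SL(2, ℝ)) (M : Matrix (Fin 2) (Fin 2) ℝ) : NCU_J X g (M - 1) = NCU_J X g M := by
  unfold NCU_J
  simp

theorem NCU_W1 (X : Fd) (g : SL(2, ℝ)) (M : Matrix (Fin 2) (Fin 2) ℝ) : NCU_W X g (M - 1) = NCU_W X g M := by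
  unfold NCU_W
  simp

theorem NCU_R (B B2 ε : ℝ) (X : Fd) (hB : 1 ≤ B) (hBB : B ≤ B2) (n0 : ∀ D, 0 ≤ nm D) (ni : ∀ D, nm D⁻¹ = nm D) (F : NCU_F B ε X)
    (h E : SL(2, ℝ)) (r m x x' : ℝ) (hr : 0 < r) (hrε : r ≤ ε / B) (hr1 : 2 * B ^ 3 * r ≤ 1) (hm : 0 ≤ m)
    (hx : |x| ≤ r) (hx' : |x'| ≤ r) (hxx : |x' - x| ≤ m) (hE : NCU_n (E.1 - 1) ≤ B2 * m) :
    ∃ (Cm Q : Matrix (Fin 2) (Fin 2) ℝ) (w w' us : ℝ),
      NCU_n (((SbN ε X x h)⁻¹ * SbN ε X x' (h * E)).1 - E.1 - (Q - Cm)) ≤ 5 * (20 * B2 ^ 3) ^ 3 * (r * m) ∧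
      NCU_J X h Cm = x ∧ NCU_W X h Cm = w ∧ Cm 0 0 - Cm 1 1 = 0 ∧ Q 0 0 - Q 1 1 = 0 ∧
      |NCU_J X h Q - x'| ≤ 20 * B2 ^ 5 * (r * m) ∧ |NCU_W X h Q - w'| ≤ 100 * B2 ^ 8 * (r * m) ∧
      |w' - w - us * (x' - x)| ≤ 2 * B2 ^ 2 * (r * m) ∧ us ≤ 0 ∧ -us ≤ B := by
  have hB0 : 0 < B := by linarith
  have hB21 : 1 ≤ B2 := hB.trans hBB
  have hB20 : 0 ≤ B2 := by linarith
  have hBsq : B ≤ B ^ 2 := by nlinarith
  have hBcu : B ^ 2 ≤ B ^ 3 := by nlinarith [sq_nonneg B]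
  have hBr : B * r ≤ B ^ 2 * r := mul_le_mul_of_nonneg_right hBsq hr.le
  have hBr2 : B ^ 2 * r ≤ B ^ 3 * r := mul_le_mul_of_nonneg_right hBcu hr.le
  have hrB : r ≤ B * r := le_mul_of_one_le_left hr.le hB
  have hr2 : r ≤ 1 := by linarith
  have hrm : 0 ≤ r * m := mul_nonneg hr.le hm
  have hrm1 : r * m ≤ m := mul_le_of_le_one_left hm hr2
  have hmB : ∀ z : ℝ, B * z ≤ 1 → z ≤ 1 / B := by
    intro z hz
    rw [le_div_iff₀ hB0]
    linarith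
  have hsm : B * r + B * r ≤ 1 / B := by
    refine hmB _ ?_
    have : B * (B * r + B * r) = 2 * (B ^ 2 * r) := by ring
    rw [this]
    linarith
  obtain ⟨w, hw⟩ : ∃ w, w = stn ε X h x := ⟨_, rfl⟩
  obtain ⟨w', hw'⟩ : ∃ w', w' = stn ε X (h * E) x' := ⟨_, rfl⟩
  have w1 : |w| ≤ B * r := by
    rw [hw]
    exact (F.s1 h x (hx.trans hrε)).1.trans (mul_le_mul_of_nonneg_left hx hB0.le)
  have w1' : |w'| ≤ B * r := by
    rw [hw']
    exact (F.s1 (h * E) x' (hx'.trans hrε)).1.trans (mul_le_mul_of_nonneg_left hx' hB0.le)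
  have hnE : nm E ≤ B2 * m := (NCU_m2 E).trans hE
  have hnE0 := n0 E
  have p1 : |x| + |w| ≤ 1 / B := by linarith
  have p1' : |x'| + |w'| ≤ 1 / B := by linarith
  obtain ⟨c1, c2, c3, c4⟩ := F.ch h x w p1
  obtain ⟨d1, d2, d3, d4⟩ := F.ch (h * E) x' w' p1'
  have dfm := F.df h E x w x' w' p1 p1'
  -- w - w'
  have s3 : |w' - stn ε X h x'| ≤ B2 ^ 2 * (r * m) := by
    rw [hw']
    refine (F.s3 h E x' (hx'.trans hrε)).trans ?_
    have : B * |x'| * nm E ≤ B2 * r * (B2 * m) :=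
      mul_le_mul (mul_le_mul hBB hx' (abs_nonneg _) hB20) hnE hnE0 (by positivity)
    refine this.trans (le_of_eq (by ring))
  have s2 : |stn ε X h x' - w| ≤ B2 * m := by
    rw [hw]
    refine (F.s2 h x' x (hx'.trans hrε) (hx.trans hrε)).trans (mul_le_mul hBB hxx (abs_nonneg _) hB20)
  have ww : |w - w'| ≤ 2 * B2 ^ 2 * m := by
    have e : w - w' = -((w' - stn ε X h x') + (stn ε X h x' - w)) := by ring
    rw [e, abs_neg]
    have k := abs_add_le (w' - stn ε X h x') (stn ε X h x' - w)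
    have k2 : B2 ^ 2 * (r * m) ≤ B2 ^ 2 * m := mul_le_mul_of_nonneg_left hrm1 (by positivity)
    have k3 : B2 * m ≤ B2 ^ 2 * m := mul_le_mul_of_nonneg_right (by nlinarith) hm
    linarith
  obtain ⟨Cs, hCs⟩ : ∃ Cs, Cs = pj X h x w := ⟨_, rfl⟩
  obtain ⟨Qs, hQs⟩ : ∃ Qs, Qs = pj X (h * E) x' w' := ⟨_, rfl⟩
  rw [← hCs] at c1 c2 c3 c4 dfm
  rw [← hQs] at d1 d2 d3 d4 dfm
  have bC : nm Cs ≤ 2 * B2 ^ 2 * r := by
    refine c4.trans ?_
    have : B * (|x| + |w|) ≤ B * (2 * (B * r)) := mul_le_mul_of_nonneg_left (by linarith) hB0.le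
    refine this.trans ?_
    have h2 : B * (2 * (B * r)) = 2 * (B ^ 2 * r) := by ring
    rw [h2]
    have : B ^ 2 ≤ B2 ^ 2 := pow_le_pow_left₀ hB0.le hBB 2
    have := mul_le_mul_of_nonneg_right this hr.le
    linarith
  have bQ : nm Qs ≤ 2 * B2 ^ 2 * r := by
    refine d4.trans ?_
    have : B * (|x'| + |w'|) ≤ B * (2 * (B * r)) := mul_le_mul_of_nonneg_left (by linarith) hB0.le
    refine this.trans ?_
    have h2 : B * (2 * (B * r)) = 2 * (B ^ 2 * r) := by ring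
    rw [h2]
    have : B ^ 2 ≤ B2 ^ 2 := pow_le_pow_left₀ hB0.le hBB 2
    have := mul_le_mul_of_nonneg_right this hr.le
    linarith
  have hB23 : B2 ^ 2 ≤ B2 ^ 3 := by nlinarith [sq_nonneg B2]
  have bQC : NCU_n (Qs.1 - Cs.1) ≤ 20 * B2 ^ 3 * m := by
    refine (NCU_of _ (5 * B2 ^ 3 * m) ?_).trans (by linarith)
    intro i j
    refine (dfm i j).trans ?_
    have k1 : |x - x'| ≤ B2 ^ 2 * m := by
      rw [abs_sub_comm]
      exact hxx.trans (le_mul_of_one_le_left hm (one_le_pow₀ hB21))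
    have k2 : nm E * (|x| + |w|) ≤ 2 * (B2 ^ 2 * m) := by
      have : nm E * (|x| + |w|) ≤ (B2 * m) * (2 * (B2 * r)) := by
        refine mul_le_mul hnE ?_ (by positivity) (by positivity)
        have : B * r ≤ B2 * r := mul_le_mul_of_nonneg_right hBB hr.le
        linarith
      refine this.trans ?_
      have e : (B2 * m) * (2 * (B2 * r)) = 2 * (B2 ^ 2 * (r * m)) := by ring
      rw [e]
      have := mul_le_mul_of_nonneg_left hrm1 (by positivity : 0 ≤ B2 ^ 2)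
      linarith
    have k3 : B * (|x - x'| + |w - w'| + nm E * (|x| + |w|)) ≤ B2 * (5 * (B2 ^ 2 * m)) :=
      mul_le_mul hBB (by linarith) (by positivity) hB20
    refine k3.trans (le_of_eq (by ring))
  have hR : (SbN ε X x h)⁻¹ * SbN ε X x' (h * E) = Cs⁻¹ * (E * Qs) := by
    rw [hCs, hQs, hw, hw']
    unfold SbN
    group
  have hR1 : ((SbN ε X x h)⁻¹ * SbN ε X x' (h * E)).1 = (Cs⁻¹).1 * (E.1 * Qs.1) := by
    rw [hR]
    rfl
  have hPC : (Cs⁻¹).1 * Cs.1 = 1 := by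
    have : (Cs⁻¹ * Cs).1 = (Cs⁻¹).1 * Cs.1 := rfl
    rw [← this, inv_mul_cancel]
    rfl
  have nP : NCU_n ((Cs⁻¹).1 - 1) ≤ 20 * B2 ^ 3 * r := by
    have k := NCU_m1 Cs⁻¹
    rw [ni] at k
    have := mul_le_mul_of_nonneg_right hB23 hr.le
    have h0 : 0 ≤ B2 ^ 3 * r := by positivity
    linarith
  have nQ : NCU_n (Qs.1 - 1) ≤ 20 * B2 ^ 3 * r := by
    have k := NCU_m1 Qs
    have := mul_le_mul_of_nonneg_right hB23 hr.le
    have h0 : 0 ≤ B2 ^ 3 * r := by positivity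
    linarith
  have hB31 : 1 ≤ 20 * B2 ^ 3 := by
    have := one_le_pow₀ hB21 (n := 3)
    linarith
  have nE3 : NCU_n (E.1 - 1) ≤ 20 * B2 ^ 3 * m := by
    refine hE.trans (mul_le_mul_of_nonneg_right ?_ hm)
    nlinarith [sq_nonneg B2]
  have main := NCU_B (20 * B2 ^ 3) r m (Cs⁻¹).1 Qs.1 Cs.1 E.1 hB31 hr.le hr2 hm hPC nP nQ bQC nE3
  -- change of the base point for Q
  obtain ⟨l1, l2, l3⟩ := F.lip h E
  have he : B * nm E ≤ B2 ^ 2 * m :=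
    (mul_le_mul hBB hnE hnE0 hB20).trans (le_of_eq (by ring))
  obtain ⟨f1, f2, f3, f4⟩ := F.pb h
  obtain ⟨f1', f2', f3', f4'⟩ := F.pb (h * E)
  have dJ := NCU_dJ (B2 ^ 2 * m) X h (h * E) (Qs.1 - 1) (l1.trans he)
  have dW := NCU_dW B (B2 ^ 2 * m) X h (h * E) (Qs.1 - 1) hB f1 f2 f1' f3 (l1.trans he) (l2.trans he) (l3.trans he)
  rw [NCU_J1, NCU_J1, d1, abs_sub_comm] at dJ
  rw [NCU_W1, NCU_W1, d2, abs_sub_comm] at dW
  -- the slope
  have rr : |r| ≤ r := by rw [abs_of_pos hr]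
  obtain ⟨z1, z2, z3⟩ := F.s1 h r (rr.trans hrε)
  have z0 : stn ε X h 0 = 0 := by
    have := (F.s1 h 0 (by rw [abs_zero]; linarith)).1
    rw [abs_zero, mul_zero] at this
    exact abs_eq_zero.1 (le_antisymm this (abs_nonneg _))
  have s4 := F.s4 h r x' x r 0 hrε hx' hx rr (by rw [abs_zero]; exact hr.le)
  rw [z0, sub_zero, sub_zero, ← hw, abs_of_pos hr] at s4
  refine ⟨Cs.1, Qs.1, w, w', stn ε X h r / r, ?_, c1, c2, c3, d3, ?_, ?_, ?_, ?_, ?_⟩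
  · rw [hR1]
    exact main
  · refine dJ.trans ?_
    have := mul_le_mul_of_nonneg_left nQ (by positivity : 0 ≤ B2 ^ 2 * m)
    refine this.trans (le_of_eq (by ring))
  · refine dW.trans ?_
    have k1 : 5 * B ^ 3 * (B2 ^ 2 * m) ≤ 5 * B2 ^ 3 * (B2 ^ 2 * m) :=
      mul_le_mul_of_nonneg_right (by
        have := pow_le_pow_left₀ hB0.le hBB 3
        linarith) (by positivity)
    refine (mul_le_mul k1 nQ (NCU_n0 _) (by positivity)).trans (le_of_eq (by ring))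
  · have e : w' - w - stn ε X h r / r * (x' - x) = (w' - stn ε X h x') +
        ((stn ε X h x' - w) * r - stn ε X h r * (x' - x)) / r := by
      field_simp
      ring
    rw [e]
    have k := abs_add_le (w' - stn ε X h x') (((stn ε X h x' - w) * r - stn ε X h r * (x' - x)) / r)
    have k2 : |((stn ε X h x' - w) * r - stn ε X h r * (x' - x)) / r| ≤ B2 ^ 2 * (r * m) := by
      rw [abs_div, abs_of_pos hr, div_le_iff₀ hr]
      refine s4.trans ?_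
      have k3 : B * r * (|x' - x| * r) ≤ B2 ^ 2 * r * (m * r) := by
        refine mul_le_mul (mul_le_mul_of_nonneg_right (by nlinarith) hr.le) (mul_le_mul_of_nonneg_right hxx hr.le) (by positivity) (by positivity)
      refine k3.trans (le_of_eq (by ring))
    linarith
  · rw [div_le_iff₀ hr, zero_mul]
    by_contra hc
    push Not at hc
    have := mul_pos hr hc
    linarith
  · have k := neg_abs_le (stn ε X h r)
    rw [← neg_div, div_le_iff₀ hr]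
    rw [abs_of_pos hr] at z1
    linarith

theorem NCU_fin (B M n r m δ s ξ wd dd us pG RJ RW RX : ℝ) (hB : 1 ≤ B) (hM : 1 ≤ M) (hn : 0 ≤ n) (hr : 0 ≤ r)
    (hm0 : 0 ≤ m) (hrm : 3 * B ^ 4 * M * r ≤ 1 / 2) (hδ0 : 0 ≤ δ) (h1 : δ ≤ B * wd) (h2 : |dd| ≤ B * δ)
    (h3 : us ≤ 0) (h4 : -us ≤ B) (h5 : 1 / B ≤ pG) (hm : m = δ ∨ m = |s| ∨ m = |ξ|)
    (k1 : |RJ - δ - ξ| ≤ M * (r * m)) (k2 : |RW - wd - us * ξ| ≤ M * (r * m)) (k3 : |RX - dd - s * pG| ≤ M * (r * m))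
    (n1 : |RJ| ≤ M * n) (n2 : |RW| ≤ M * n) (n3 : |RX| ≤ M * n) : m ≤ 6 * B ^ 4 * M * n := by
  have hB0 : 0 < B := by linarith
  obtain ⟨T, hT⟩ : ∃ T, T = M * n + M * (r * m) := ⟨_, rfl⟩
  have hMn : 0 ≤ M * n := by positivity
  have hMr : 0 ≤ M * (r * m) := by positivity
  have hT0 : 0 ≤ T := by linarith
  have usB : |us| ≤ B := by
    rw [abs_of_nonpos h3]
    exact h4
  have B1 : 1 ≤ B ^ 2 := one_le_pow₀ hB
  have B2 : B ≤ B ^ 2 := by nlinarith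
  have B3 : B ^ 2 ≤ B ^ 3 := by nlinarith [sq_nonneg B]
  have B4 : B ^ 3 ≤ B ^ 4 := by nlinarith [pow_pos hB0 3]
  have hδT : δ ≤ 2 * B ^ 2 * T := by
    have e : wd - us * δ = RW - us * RJ - (RW - wd - us * ξ) + us * (RJ - δ - ξ) := by ring
    have u1 := abs_le.1 (NCU_mulle usB n1)
    have u2 := abs_le.1 (NCU_mulle usB k1)
    have u3 := abs_le.1 n2
    have u4 := abs_le.1 k2
    have u5 : 0 ≤ -us * δ := mul_nonneg (by linarith) hδ0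
    have u6 : wd ≤ (1 + B) * T := by
      rw [hT]
      linarith
    have u7 : B * wd ≤ B * ((1 + B) * T) := mul_le_mul_of_nonneg_left u6 hB0.le
    have u8 : B * T ≤ B ^ 2 * T := mul_le_mul_of_nonneg_right B2 hT0
    have u9 : B * ((1 + B) * T) = B * T + B ^ 2 * T := by ring
    linarith
  have hξT : |ξ| ≤ 3 * B ^ 2 * T := by
    have u1 := abs_le.1 n1
    have u2 := abs_le.1 k1
    have u3 : T ≤ B ^ 2 * T := le_mul_of_one_le_left hT0 B1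
    exact abs_le.2 ⟨by linarith, by linarith⟩
  have hsT : |s| ≤ 3 * B ^ 4 * T := by
    have u1 := abs_le.1 n3
    have u2 := abs_le.1 k3
    have u3 := abs_le.1 h2
    have u4 : B * δ ≤ B * (2 * B ^ 2 * T) := mul_le_mul_of_nonneg_left hδT hB0.le
    have u5 : B * (2 * B ^ 2 * T) = 2 * (B ^ 3 * T) := by ring
    have u6 : T ≤ B ^ 3 * T := le_mul_of_one_le_left hT0 (one_le_pow₀ hB)
    have u7 : |s * pG| ≤ 3 * (B ^ 3 * T) := abs_le.2 ⟨by linarith, by linarith⟩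
    rw [abs_mul] at u7
    have u8 : 1 / B ≤ |pG| := h5.trans (le_abs_self _)
    have u9 : |s| * (1 / B) ≤ 3 * (B ^ 3 * T) := (mul_le_mul_of_nonneg_left u8 (abs_nonneg _)).trans u7
    have u10 : |s| = B * (|s| * (1 / B)) := by
      field_simp
    rw [u10]
    refine (mul_le_mul_of_nonneg_left u9 hB0.le).trans (le_of_eq (by ring))
  have t1 : B ^ 2 * T ≤ B ^ 4 * T := mul_le_mul_of_nonneg_right (B3.trans B4) hT0
  have t2 : 0 ≤ B ^ 4 * T := by positivity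
  have hmT : m ≤ 3 * B ^ 4 * T := by
    rcases hm with h | h | h
    · rw [h]
      linarith
    · rw [h]
      exact hsT
    · rw [h]
      linarith
  have t3 : 3 * B ^ 4 * T = 3 * B ^ 4 * M * n + (3 * B ^ 4 * M * r) * m := by
    rw [hT]
    ring
  have t4 : (3 * B ^ 4 * M * r) * m ≤ 1 / 2 * m := mul_le_mul_of_nonneg_right hrm hm0
  linarith

theorem NCU_lin (X : Fd) (h : SL(2, ℝ)) (R D Y Q Cm Er : Matrix (Fin 2) (Fin 2) ℝ) (s : ℝ)
    (hEr : R = D + s • Y + (Q - Cm) + Er) :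
    NCU_J X h R = NCU_J X h D + s * NCU_J X h Y + NCU_J X h Q - NCU_J X h Cm + NCU_J X h Er ∧
    NCU_W X h R = NCU_W X h D + s * NCU_W X h Y + NCU_W X h Q - NCU_W X h Cm + NCU_W X h Er ∧
    R 0 0 - R 1 1 = (D 0 0 - D 1 1) + s * (Y 0 0 - Y 1 1) + (Q 0 0 - Q 1 1) - (Cm 0 0 - Cm 1 1) + (Er 0 0 - Er 1 1) := by
  rw [hEr]
  unfold NCU_J NCU_W
  simp only [Matrix.add_apply, Matrix.sub_apply, Matrix.smul_apply, smul_eq_mul]
  refine ⟨by ring, by ring, by ring⟩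

theorem NCU_Y (X : Fd) (G : SL(2, ℝ)) (hp : X.p G ≠ 0) (h : SL(2, ℝ)) : NCU_J X h (Xm X G) = 0 ∧ NCU_W X G (Xm X G) = 0 ∧
    Xm X G 0 0 - Xm X G 1 1 = X.p G := by
  unfold NCU_J NCU_W Xm
  simp only [Matrix.of_apply, Matrix.cons_val', Matrix.cons_val_zero, Matrix.cons_val_one, Matrix.cons_val_fin_one]
  refine ⟨by ring, ?_, by ring⟩
  field_simp
  ring

theorem NCU_core (B : ℝ) (hB : 1 ≤ B) : ∃ M : ℝ, 1 ≤ M ∧ ∀ (ε r : ℝ) (X : Fd), Flw X.p X.q X.f → (∀ D, 0 ≤ nm D) → (∀ D, nm D⁻¹ = nm D) →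
    NCU_F B ε X → 0 < r → r ≤ ε / B → M * r ≤ 1 → ∀ (g D : SL(2, ℝ)) (δ t t' x x' : ℝ), 0 ≤ δ → δ ≤ B * r →
    nm D ≤ B * δ → Jd X g D = δ → δ ≤ B * Wd X g D → |D.1 0 0 - D.1 1 1| ≤ B * δ → |t| ≤ r → |t'| ≤ r → |x| ≤ r → |x'| ≤ r →
    max δ (max |t - t'| |x - x'|) ≤ M * nm ((SbN ε X x (X.f t g))⁻¹ * SbN ε X x' (X.f t' (g * D))) := by
  have hB0 : 0 < B := by linarith
  obtain ⟨B2, hB2⟩ : ∃ B2, B2 = 8 * (8 * B ^ 2) ^ 3 := ⟨_, rfl⟩
  have hBsq : 1 ≤ B ^ 2 := one_le_pow₀ hB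
  have hBB : B ≤ B2 := by
    rw [hB2]
    have k1 : 8 * B ^ 2 ≤ (8 * B ^ 2) ^ 3 := le_self_pow₀ (by linarith) (by norm_num)
    have k2 : B ≤ B ^ 2 := by nlinarith
    linarith
  have hB20 : 0 < B2 := by linarith
  obtain ⟨M1, hM1⟩ : ∃ M1, M1 = 5 * (20 * B2 ^ 3) ^ 3 + 6 * (8 * B ^ 2) ^ 3 := ⟨_, rfl⟩
  have hM10 : 0 ≤ M1 := by rw [hM1]; positivity
  obtain ⟨M2, hM2⟩ : ∃ M2, M2 = 4 * B ^ 3 + 20 * B ^ 6 + 120 * B ^ 7 + 20 * B2 ^ 5 + 100 * B2 ^ 8 + 2 * B2 ^ 2 + 4 * B ^ 2 * M1 +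
      16 * B ^ 2 + B * M1 + M1 + 4 * B := ⟨_, rfl⟩
  have q1 : 0 ≤ 4 * B ^ 3 := by positivity
  have q2 : 0 ≤ 20 * B ^ 6 := by positivity
  have q3 : 0 ≤ 120 * B ^ 7 := by positivity
  have q4 : 0 ≤ 20 * B2 ^ 5 := by positivity
  have q5 : 0 ≤ 100 * B2 ^ 8 := by positivity
  have q6 : 0 ≤ 2 * B2 ^ 2 := by positivity
  have q7 : 0 ≤ 4 * B ^ 2 * M1 := by positivity
  have q8 : 0 ≤ B * M1 := by positivity
  have hM2one : 1 ≤ M2 := by linarith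
  obtain ⟨M, hM⟩ : ∃ M, M = 6 * B ^ 4 * M2 + 2 * B ^ 3 := ⟨_, rfl⟩
  have hp4 : 0 ≤ 6 * B ^ 4 * M2 := by positivity
  have hp3 : 0 ≤ 2 * B ^ 3 := by positivity
  refine ⟨M, ?_, ?_⟩
  · have : 1 ≤ B ^ 3 := one_le_pow₀ hB
    linarith
  intro ε r X hfl n0 ni F hr hrε hMr g D δ t t' x x' hδ hδr hD hJ hW hdd ht ht' hx hx'
  obtain ⟨m, hm⟩ : ∃ m, m = max δ (max |t - t'| |x - x'|) := ⟨_, rfl⟩
  rw [← hm]
  have hmc : δ ≤ m := by rw [hm]; exact le_max_left _ _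
  have hmt : |t' - t| ≤ m := by
    rw [hm, abs_sub_comm]; exact (le_max_left _ _).trans (le_max_right _ _)
  have hmx : |x' - x| ≤ m := by
    rw [hm, abs_sub_comm]; exact (le_max_right _ _).trans (le_max_right _ _)
  have hch : m = δ ∨ m = |t' - t| ∨ m = |x' - x| := by
    rw [abs_sub_comm t' t, abs_sub_comm x' x]
    rcases max_choice δ (max |t - t'| |x - x'|) with hh | hh
    · left
      rw [hm, hh]
    · rcases max_choice |t - t'| |x - x'| with hk | hk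
      · right; left
        rw [hm, hh, hk]
      · right; right
        rw [hm, hh, hk]
  have hm0 : 0 ≤ m := hδ.trans hmc
  clear hm
  have e0 : M * r = 6 * B ^ 4 * M2 * r + 2 * B ^ 3 * r := by rw [hM]; ring
  have p0 : 0 ≤ 6 * B ^ 4 * M2 * r := by positivity
  have p1 : 0 ≤ 2 * B ^ 3 * r := by positivity
  have hr1 : 2 * B ^ 3 * r ≤ 1 := by linarith
  have hr2 : 3 * B ^ 4 * M2 * r ≤ 1 / 2 := by linarith
  have hs2 : |t' - t| ≤ 2 * r := by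
    have u1 := abs_le.1 ht
    have u2 := abs_le.1 ht'
    exact abs_le.2 ⟨by linarith, by linarith⟩
  obtain ⟨E, A, hE, bA, e1, e2⟩ := NCU_E B ε X hB hfl n0 F g D r m δ t t' hr.le hr1 hδ hmc hδr hD ht hs2 hmt
  rw [← hB2] at e2
  rw [hE]
  obtain ⟨Cm, Q, w, w', us, f1, f2, f3, f4, f5, f6, f7, f8, f9, f10⟩ :=
    NCU_R B B2 ε X hB hBB n0 ni F (X.f t g) E r m x x' hr hrε hr1 hm0 hx hx' hmx e2
  obtain ⟨R, hR⟩ : ∃ R, R = (SbN ε X x (X.f t g))⁻¹ * SbN ε X x' (X.f t g * E) := ⟨_, rfl⟩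
  rw [← hR] at f1
  rw [← hR]
  have hrm : 0 ≤ r * m := mul_nonneg hr.le hm0
  obtain ⟨Y, hY⟩ : ∃ Y, Y = Xm X (X.f t g * A) := ⟨_, rfl⟩
  obtain ⟨Er, hEr⟩ : ∃ Er, Er = (R.1 - E.1 - (Q - Cm)) + (E.1 - D.1 - (t' - t) • Y) := ⟨_, rfl⟩
  have nEr : NCU_n Er ≤ M1 * (r * m) := by
    rw [hEr, hM1, hY]
    refine (NCU_add _ _).trans ?_
    linarith
  have hdec : R.1 = D.1 + (t' - t) • Y + (Q - Cm) + Er := by
    rw [hEr]
    abel
  obtain ⟨L1, L2, L3⟩ := NCU_lin X (X.f t g) R.1 D.1 Y Q Cm Er (t' - t) hdec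
  obtain ⟨g1, g2, g3, g4⟩ := F.pb (X.f t g)
  obtain ⟨g1', g2', g3', g4'⟩ := F.pb (X.f t g * A)
  obtain ⟨g1'', g2'', g3'', g4''⟩ := F.pb g
  have hpG : 0 < X.p (X.f t g * A) := lt_of_lt_of_le (by positivity) g1'
  have hph : 0 < X.p (X.f t g) := lt_of_lt_of_le (by positivity) g1
  obtain ⟨y1, y2, y3⟩ := NCU_Y X (X.f t g * A) hpG.ne' (X.f t g)
  -- Y at h
  have nY : NCU_n Y ≤ 3 * B := by
    rw [hY]
    unfold NCU_n Xm
    simp only [Matrix.of_apply, Matrix.cons_val', Matrix.cons_val_zero, Matrix.cons_val_one, Matrix.cons_val_fin_one, abs_neg]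
    rw [abs_of_pos (by linarith : 0 < X.p (X.f t g * A) / 2)]
    linarith
  obtain ⟨l1, l2, l3⟩ := F.lip (X.f t g) A
  have hA1 : B * nm A ≤ 8 * B ^ 3 * r := by
    have := mul_le_mul_of_nonneg_left bA hB0.le
    refine this.trans (le_of_eq (by ring))
  have yW : |NCU_W X (X.f t g) Y| ≤ 120 * B ^ 7 * r := by
    have k := NCU_dW B (8 * B ^ 3 * r) X (X.f t g) (X.f t g * A) Y hB g1 g2 g1' g3 (l1.trans hA1) (l2.trans hA1) (l3.trans hA1)
    rw [hY, y2, zero_sub, abs_neg, ← hY] at k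
    refine k.trans ?_
    refine (mul_le_mul_of_nonneg_left nY (by positivity)).trans (le_of_eq (by ring))
  -- D at h
  have hgh : X.f t g = g * (g⁻¹ * X.f t g) := by rw [mul_inv_cancel_left]
  obtain ⟨l1', l2', l3'⟩ := F.lip g (g⁻¹ * X.f t g)
  rw [← hgh] at l1' l2' l3'
  have hmB : ∀ z : ℝ, B * z ≤ 1 → z ≤ 1 / B := by
    intro z hz
    rw [le_div_iff₀ hB0]
    linarith
  have hrB : r ≤ 1 / B := by
    refine hmB _ ?_
    have : B * r ≤ B ^ 3 * r := mul_le_mul_of_nonneg_right (le_self_pow₀ hB (by norm_num)) hr.le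
    linarith
  have hgt : B * nm (g⁻¹ * X.f t g) ≤ B ^ 2 * r := by
    have k := (F.sm g r t hrB ht).1
    have k2 : B * |t| ≤ B * r := mul_le_mul_of_nonneg_left ht hB0.le
    have := mul_le_mul_of_nonneg_left (k.trans k2) hB0.le
    refine this.trans (le_of_eq (by ring))
  have nD : NCU_n (D.1 - 1) ≤ 4 * B * m := by
    have k := NCU_m1 D
    have : B * δ ≤ B * m := mul_le_mul_of_nonneg_left hmc hB0.le
    linarith
  have dDJ : |NCU_J X (X.f t g) D.1 - δ| ≤ 4 * B ^ 3 * (r * m) := by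
    have k := NCU_dJ (B ^ 2 * r) X g (X.f t g) (D.1 - 1) (l1'.trans hgt)
    rw [NCU_J1, NCU_J1] at k
    have e : NCU_J X g D.1 = δ := hJ
    rw [e] at k
    refine k.trans ?_
    refine (mul_le_mul_of_nonneg_left nD (by positivity)).trans (le_of_eq (by ring))
  have dDW : |NCU_W X (X.f t g) D.1 - Wd X g D| ≤ 20 * B ^ 6 * (r * m) := by
    have k := NCU_dW B (B ^ 2 * r) X g (X.f t g) (D.1 - 1) hB g1'' g2'' g1 g3'' (l1'.trans hgt) (l2'.trans hgt) (l3'.trans hgt)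
    rw [NCU_W1, NCU_W1] at k
    have e : NCU_W X g D.1 = Wd X g D := rfl
    rw [e] at k
    refine k.trans ?_
    refine (mul_le_mul_of_nonneg_left nD (by positivity)).trans (le_of_eq (by ring))
  have hpa : |X.p (X.f t g)| ≤ B := by rw [abs_of_pos hph]; exact g2
  have r1 : |NCU_J X (X.f t g) Er| ≤ B * M1 * (r * m) := by
    refine (NCU_bJ B X _ _ hpa).trans ?_
    refine (mul_le_mul_of_nonneg_left nEr hB0.le).trans (le_of_eq (by ring))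
  have r2 : |NCU_W X (X.f t g) Er| ≤ 4 * B ^ 2 * M1 * (r * m) := by
    refine (NCU_bW B X _ _ hB g1 g3 g4).trans ?_
    refine (mul_le_mul_of_nonneg_left nEr (by positivity)).trans (le_of_eq (by ring))
  have r3 : |Er 0 0 - Er 1 1| ≤ M1 * (r * m) := (NCU_ent Er).2.2.trans nEr
  have nR := NCU_m1 R
  have hn := n0 R
  have v1 : |NCU_J X (X.f t g) R.1| ≤ 4 * B * nm R := by
    have k := NCU_bJ B X (X.f t g) (R.1 - 1) hpa
    rw [NCU_J1] at k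
    refine k.trans ?_
    refine (mul_le_mul_of_nonneg_left nR hB0.le).trans (le_of_eq (by ring))
  have v2 : |NCU_W X (X.f t g) R.1| ≤ 16 * B ^ 2 * nm R := by
    have k := NCU_bW B X (X.f t g) (R.1 - 1) hB g1 g3 g4
    rw [NCU_W1] at k
    refine k.trans ?_
    refine (mul_le_mul_of_nonneg_left nR (by positivity)).trans (le_of_eq (by ring))
  have v3 : |R.1 0 0 - R.1 1 1| ≤ 4 * nm R := by
    have k := (NCU_ent (R.1 - 1)).2.2
    have e : (R.1 - 1) 0 0 - (R.1 - 1) 1 1 = R.1 0 0 - R.1 1 1 := by simp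
    rw [e] at k
    exact k.trans nR
  rw [hY, y1] at L1
  rw [f3] at L2
  rw [f2] at L1
  rw [f4, f5, hY, y3] at L3
  have sYW : |(t' - t) * NCU_W X (X.f t g) Y| ≤ 120 * B ^ 7 * (r * m) := by
    refine (NCU_mulle hmt yW).trans (le_of_eq (by ring))
  have k1 : |NCU_J X (X.f t g) R.1 - δ - (x' - x)| ≤ M2 * (r * m) := by
    rw [L1]
    have a1 := abs_le.1 dDJ
    have a2 := abs_le.1 f6
    have a3 := abs_le.1 r1
    have hle : (4 * B ^ 3 + 20 * B2 ^ 5 + B * M1) * (r * m) ≤ M2 * (r * m) := mul_le_mul_of_nonneg_right (by linarith) hrm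
    exact abs_le.2 ⟨by linarith, by linarith⟩
  have k2 : |NCU_W X (X.f t g) R.1 - Wd X g D - us * (x' - x)| ≤ M2 * (r * m) := by
    rw [L2]
    have a1 := abs_le.1 dDW
    have a2 := abs_le.1 f7
    have a3 := abs_le.1 r2
    have a4 := abs_le.1 sYW
    have a5 := abs_le.1 f8
    have hle : (20 * B ^ 6 + 120 * B ^ 7 + 100 * B2 ^ 8 + 2 * B2 ^ 2 + 4 * B ^ 2 * M1) * (r * m) ≤ M2 * (r * m) := mul_le_mul_of_nonneg_right (by linarith) hrm
    exact abs_le.2 ⟨by linarith, by linarith⟩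
  have k3 : |R.1 0 0 - R.1 1 1 - (D.1 0 0 - D.1 1 1) - (t' - t) * X.p (X.f t g * A)| ≤ M2 * (r * m) := by
    rw [L3]
    have a3 := abs_le.1 r3
    have hle : M1 * (r * m) ≤ M2 * (r * m) := mul_le_mul_of_nonneg_right (by linarith) hrm
    exact abs_le.2 ⟨by linarith, by linarith⟩
  have m1 : 4 * B * nm R ≤ M2 * nm R := mul_le_mul_of_nonneg_right (by linarith) hn
  have m2 : 16 * B ^ 2 * nm R ≤ M2 * nm R := mul_le_mul_of_nonneg_right (by linarith) hn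
  have m3 : 4 * nm R ≤ M2 * nm R := mul_le_mul_of_nonneg_right (by linarith) hn
  have fin := NCU_fin B M2 (nm R) r m δ (t' - t) (x' - x) (Wd X g D) (D.1 0 0 - D.1 1 1) us (X.p (X.f t g * A))
    (NCU_J X (X.f t g) R.1) (NCU_W X (X.f t g) R.1) (R.1 0 0 - R.1 1 1) hB hM2one hn hr.le hm0 hr2 hδ hW hdd f9 f10
    g1' hch k1 k2 k3 (v1.trans m1) (v2.trans m2) (v3.trans m3)
  refine fin.trans (mul_le_mul_of_nonneg_right ?_ hn)
  linarith

theorem NCU_bc (K C1 δ wd p m q a b c d : ℝ) (hK : 1 ≤ K) (hC : 1 ≤ C1) (hp : 1 / K ≤ p) (hq : |q| ≤ K)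
    (hm : |m| ≤ K) (hδ : 0 ≤ δ) (e1 : δ = -(p * (b + c))) (e2 : wd = (b - c) - m * (b + c) + 2 * q * (a - d) / p)
    (hw0 : 0 ≤ wd) (hw : wd ≤ C1 * δ) (had : |a - d| ≤ C1 * δ) : |b| ≤ 3 * K ^ 2 * C1 * δ ∧ |c| ≤ 3 * K ^ 2 * C1 * δ := by
  have hK0 : 0 < K := by linarith
  have hp0 : 0 < p := lt_of_lt_of_le (by positivity) hp
  have hpi : |p⁻¹| ≤ K := by
    rw [abs_of_pos (inv_pos.2 hp0)]
    rw [div_le_iff₀ hK0] at hp
    rw [inv_le_iff_one_le_mul₀ hp0]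
    linarith
  have hδa : |δ| ≤ δ := by rw [abs_of_nonneg hδ]
  have s1 : b + c = -(δ * p⁻¹) := by
    rw [e1]
    field_simp
  have s2 : b - c = wd - m * (δ * p⁻¹) - 2 * (q * p⁻¹ * (a - d)) := by
    rw [e2, s1, div_eq_mul_inv]
    ring
  have t1 := abs_le.1 (NCU_mulle hδa hpi)
  have t2 := abs_le.1 (NCU_mulle hm (NCU_mulle hδa hpi))
  have t3 := abs_le.1 (NCU_mulle (NCU_mulle hq hpi) had)
  obtain ⟨P, hP⟩ : ∃ P, P = K ^ 2 * C1 * δ := ⟨_, rfl⟩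
  have hKK : K ≤ K ^ 2 := by nlinarith
  have hK2 : K ^ 2 ≤ K ^ 2 * C1 := le_mul_of_one_le_right (by positivity) hC
  have w1 : δ * K ≤ P := by
    rw [hP, mul_comm]
    exact mul_le_mul_of_nonneg_right (hKK.trans hK2) hδ
  have w2 : K * (δ * K) ≤ P := by
    have e : K * (δ * K) = K ^ 2 * δ := by ring
    rw [hP, e]
    exact mul_le_mul_of_nonneg_right hK2 hδ
  have w3 : K * K * (C1 * δ) = P := by rw [hP]; ring
  have w4 : C1 * δ ≤ P := by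
    rw [hP]
    have : C1 ≤ K ^ 2 * C1 := le_mul_of_one_le_left (by linarith) (one_le_pow₀ hK)
    exact mul_le_mul_of_nonneg_right this hδ
  have w5 : 3 * K ^ 2 * C1 * δ = 3 * P := by rw [hP]; ring
  rw [w5]
  rw [w3] at t3
  constructor
  · exact abs_le.2 ⟨by linarith, by linarith⟩
  · exact abs_le.2 ⟨by linarith, by linarith⟩

theorem NCU_D (K C1 : ℝ) (X : Fd) (γ : ℝ → SL(2, ℝ)) (hK : 1 ≤ K) (hC : 1 ≤ C1) (hX : HF K X) (hU : UCX C1 X γ)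
    (v v' : ℝ) (h0 : 0 ≤ v) (h1 : v < v') (h2 : v' ≤ 1) (h3 : 100 * (3 * K ^ 2 * C1) ^ 2 * (C1 * (v' - v)) ≤ 1) :
    nm ((γ v)⁻¹ * γ v') ≤ 3 * K ^ 2 * C1 * Jd X (γ v) ((γ v)⁻¹ * γ v') := by
  obtain ⟨L, hL⟩ : ∃ L, L = 3 * K ^ 2 * C1 := ⟨_, rfl⟩
  have hL3 : 3 ≤ L := by
    have k1 : 1 ≤ K ^ 2 := one_le_pow₀ hK
    have : 1 ≤ K ^ 2 * C1 := one_le_mul_of_one_le_of_one_le k1 hC
    rw [hL]
    linarith
  have hLC : C1 ≤ L := by
    have k1 : 1 ≤ 3 * K ^ 2 := by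
      have := one_le_pow₀ hK (n := 2)
      linarith
    rw [hL]
    exact le_mul_of_one_le_left (by linarith) k1
  rw [← hL] at h3
  rw [← hL]
  have hb : ∀ w : ℝ, v < w → w ≤ v' → 0 ≤ Jd X (γ v) ((γ v)⁻¹ * γ w) ∧ Jd X (γ v) ((γ v)⁻¹ * γ w) ≤ C1 * (v' - v) ∧
      |((γ v)⁻¹ * γ w).1 0 1| ≤ L * Jd X (γ v) ((γ v)⁻¹ * γ w) ∧ |((γ v)⁻¹ * γ w).1 1 0| ≤ L * Jd X (γ v) ((γ v)⁻¹ * γ w) ∧
      |((γ v)⁻¹ * γ w).1 0 0 - ((γ v)⁻¹ * γ w).1 1 1| ≤ C1 * Jd X (γ v) ((γ v)⁻¹ * γ w) := by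
    intro w hw hw'
    obtain ⟨c1, c2, c3, c4, c5⟩ := hU.cone v w h0 hw (hw'.trans h2) _ rfl
    have k1 : 0 ≤ (w - v) / C1 := div_nonneg (by linarith) (by linarith)
    have k2 : 0 ≤ Jd X (γ v) ((γ v)⁻¹ * γ w) := k1.trans c1
    have k3 : 0 ≤ Wd X (γ v) ((γ v)⁻¹ * γ w) := by
      by_contra hc
      push Not at hc
      have := mul_neg_of_pos_of_neg (by linarith : 0 < C1) hc
      linarith
    obtain ⟨u1, u2⟩ := hX.pb (γ v)
    obtain ⟨u3, u4, -⟩ := hX.qb (γ v)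
    obtain ⟨b1, b2⟩ := NCU_bc K C1 (Jd X (γ v) ((γ v)⁻¹ * γ w)) (Wd X (γ v) ((γ v)⁻¹ * γ w)) (X.p (γ v)) (X.m (γ v)) (X.q (γ v))
      (((γ v)⁻¹ * γ w).1 0 0) (((γ v)⁻¹ * γ w).1 0 1) (((γ v)⁻¹ * γ w).1 1 0) (((γ v)⁻¹ * γ w).1 1 1) hK hC u1 u3 u4 k2 rfl rfl
      k3 c4 c5
    rw [← hL] at b1 b2
    exact ⟨k2, c2.trans (mul_le_mul_of_nonneg_left (by linarith) (by linarith)), b1, b2, c5⟩
  obtain ⟨ρ, hρ⟩ : ∃ ρ, ρ = C1 * (v' - v) := ⟨_, rfl⟩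
  rw [← hρ] at h3 hb
  have hρ0 : 0 ≤ ρ := by
    rw [hρ]
    exact mul_nonneg (by linarith) (by linarith)
  have hL2 : L ≤ L ^ 2 := by nlinarith
  have hLρ2 : L ^ 2 * ρ ≤ 1 / 100 := by linarith
  have hLρ : L * ρ ≤ 1 / 100 := (mul_le_mul_of_nonneg_right hL2 hρ0).trans hLρ2
  have hdet : ∀ w : ℝ, ((γ v)⁻¹ * γ w).1 0 0 * ((γ v)⁻¹ * γ w).1 1 1 - ((γ v)⁻¹ * γ w).1 0 1 * ((γ v)⁻¹ * γ w).1 1 0 = 1 := by
    intro w
    rw [← Matrix.det_fin_two]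
    exact ((γ v)⁻¹ * γ w).2
  -- the trace
  have htr : 0 < ((γ v)⁻¹ * γ v').1 0 0 + ((γ v)⁻¹ * γ v').1 1 1 := by
    by_contra hcon
    push Not at hcon
    have hcont : ContinuousOn (fun w => ((γ v)⁻¹ * γ w).1 0 0 + ((γ v)⁻¹ * γ w).1 1 1) (Icc v v') := by
      have hg : ContinuousOn (fun w => (γ v)⁻¹ * γ w) (Icc v v') :=
        continuousOn_const.mul (hU.cont.mono (Icc_subset_Icc h0 h2))
      have hm : ContinuousOn (fun w => ((γ v)⁻¹ * γ w).1) (Icc v v') :=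
        continuous_subtype_val.comp_continuousOn hg
      have he : ∀ i j : Fin 2, ContinuousOn (fun w => ((γ v)⁻¹ * γ w).1 i j) (Icc v v') := fun i j =>
        ((continuous_apply_apply i j).comp_continuousOn hm)
      exact (he 0 0).add (he 1 1)
    have hv0 : (fun w => ((γ v)⁻¹ * γ w).1 0 0 + ((γ v)⁻¹ * γ w).1 1 1) v = 2 := by
      simp only [inv_mul_cancel]
      norm_num
    have hmem : (0 : ℝ) ∈ Icc ((fun w => ((γ v)⁻¹ * γ w).1 0 0 + ((γ v)⁻¹ * γ w).1 1 1) v')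
        ((fun w => ((γ v)⁻¹ * γ w).1 0 0 + ((γ v)⁻¹ * γ w).1 1 1) v) := by
      rw [hv0]
      exact ⟨hcon, by norm_num⟩
    obtain ⟨w, hw, hw0⟩ := intermediate_value_Icc' h1.le hcont hmem
    have hvw : v < w := by
      rcases hw.1.lt_or_eq with h | h
      · exact h
      · exfalso
        rw [← h, hv0] at hw0
        norm_num at hw0
    have hw0' : ((γ v)⁻¹ * γ w).1 0 0 + ((γ v)⁻¹ * γ w).1 1 1 = 0 := hw0
    obtain ⟨j1, j2, j3, j4, j5⟩ := hb w hvw hw.2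
    have hd := hdet w
    have h6 : L * Jd X (γ v) ((γ v)⁻¹ * γ w) ≤ 1 / 100 := (mul_le_mul_of_nonneg_left j2 (by linarith)).trans hLρ
    have h5 := abs_le.1 (NCU_mulle (j3.trans h6) (j4.trans h6))
    nlinarith [sq_nonneg (((γ v)⁻¹ * γ w).1 0 0 - ((γ v)⁻¹ * γ w).1 1 1)]
  obtain ⟨j1, j2, j3, j4, j5⟩ := hb v' h1 le_rfl
  have hd := hdet v'
  obtain ⟨δ, hδ⟩ : ∃ δ, δ = Jd X (γ v) ((γ v)⁻¹ * γ v') := ⟨_, rfl⟩
  obtain ⟨D, hD⟩ : ∃ D, D = (γ v)⁻¹ * γ v' := ⟨_, rfl⟩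
  rw [← hD] at hδ
  rw [← hD, ← hδ] at j1 j2 j3 j4 j5
  rw [← hD] at hd htr
  rw [← hD, ← hδ]
  obtain ⟨s, hs⟩ : ∃ s, s = D.1 0 0 + D.1 1 1 := ⟨_, rfl⟩
  rw [← hs] at htr
  have hs2 : (s - 2) * (s + 2) = (D.1 0 0 - D.1 1 1) * (D.1 0 0 - D.1 1 1) + 4 * (D.1 0 1 * D.1 1 0) := by
    rw [hs]
    linear_combination 4 * hd
  have j5' : |D.1 0 0 - D.1 1 1| ≤ L * δ := j5.trans (mul_le_mul_of_nonneg_right hLC j1)
  have hLL : L * δ * (L * δ) ≤ 1 / 100 * δ := by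
    have e : L * δ * (L * δ) = (L ^ 2 * δ) * δ := by ring
    rw [e]
    exact mul_le_mul_of_nonneg_right ((mul_le_mul_of_nonneg_left j2 (by positivity)).trans hLρ2) j1
  have hbc := abs_le.1 (NCU_mulle j3 j4)
  have hdd := abs_le.1 (NCU_mulle j5' j5')
  have hs3 : |s - 2| ≤ 1 / 10 * δ := by
    have e1 : |(s - 2) * (s + 2)| ≤ 1 / 10 * δ := by
      rw [hs2]
      exact abs_le.2 ⟨by linarith, by linarith⟩
    rw [abs_mul, abs_of_pos (by linarith : 0 < s + 2)] at e1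
    nlinarith [abs_nonneg (s - 2)]
  have hs4 := abs_le.1 hs3
  have hd5 := abs_le.1 j5'
  have hLδ : 3 * δ ≤ L * δ := mul_le_mul_of_nonneg_right hL3 j1
  unfold nm
  refine max_le (max_le ?_ j3) (max_le j4 ?_)
  · exact abs_le.2 ⟨by linarith, by linarith⟩
  · exact abs_le.2 ⟨by linarith, by linarith⟩

theorem NCU_proof (h1 : VQE.NMB_stmt) (h2 : NCH_stmt) (h3 : NSM_stmt) (h4 : NSD_stmt) (h5 : NTP_stmt) : NCU_stmt := by
  intro K C1 hK hC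
  obtain ⟨L, hL⟩ : ∃ L, L = 3 * K ^ 2 * C1 := ⟨_, rfl⟩
  have hLC : C1 ≤ L := by
    have k1 : 1 ≤ 3 * K ^ 2 := by
      have := one_le_pow₀ hK (n := 2)
      linarith
    rw [hL]
    exact le_mul_of_one_le_left (by linarith) k1
  obtain ⟨B, ε0, hBK, hBL, hε0, HB⟩ := NCU_facts h1 h2 h3 h4 h5 K L hK (hC.trans hLC)
  have hB : 1 ≤ B := hK.trans hBK
  obtain ⟨M, hM, HM⟩ := NCU_core B hB
  obtain ⟨C, hCd⟩ : ∃ C, C = C1 * M + B + 100 * L ^ 2 * C1 + M := ⟨_, rfl⟩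
  have z1 : 0 ≤ C1 * M := by positivity
  have z2 : 0 ≤ 100 * L ^ 2 * C1 := by positivity
  have hC0 : 0 < C := by linarith
  refine ⟨C, min ε0 1, by linarith, lt_min hε0 one_pos, ?_⟩
  intro ε X γ hε hε' hX hU
  have hεε := hε'.trans (min_le_left _ _)
  have hε1 := hε'.trans (min_le_right _ _)
  have F := HB ε X hε hεε hX
  obtain ⟨r, hr⟩ : ∃ r, r = ε / C := ⟨_, rfl⟩
  have hr0 : 0 < r := by rw [hr]; positivity
  have hCr : C * r ≤ 1 := by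
    rw [hr]
    have : C * (ε / C) = ε := by field_simp
    rw [this]
    exact hε1
  have hrB : r ≤ ε / B := by
    rw [hr]
    exact div_le_div_of_nonneg_left hε.le (by linarith) (by linarith)
  have hMr : M * r ≤ 1 := (mul_le_mul_of_nonneg_right (by linarith) hr0.le).trans hCr
  have hLr : 100 * L ^ 2 * C1 * r ≤ 1 := (mul_le_mul_of_nonneg_right (by linarith) hr0.le).trans hCr
  have n0 : ∀ D, 0 ≤ nm D := h1.1
  have ni : ∀ D, nm D⁻¹ = nm D := h1.2.2.1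
  have core := HM ε r X hX.flw n0 ni F hr0 hrB hMr
  have main : ∀ v v' t t' x x' : ℝ, v ∈ Icc (0 : ℝ) 1 → v' ∈ Icc (0 : ℝ) 1 → v ≤ v' → |v - v'| ≤ r →
      |t| ≤ r → |t'| ≤ r → |x| ≤ r → |x'| ≤ r → max |v - v'| (max |t - t'| |x - x'|) ≤
        C * nm ((SbN ε X x (X.f t (γ v)))⁻¹ * SbN ε X x' (X.f t' (γ v'))) := by
    intro v v' t t' x x' hv hv' hvv hvr ht ht' hx hx'
    have hn := n0 ((SbN ε X x (X.f t (γ v)))⁻¹ * SbN ε X x' (X.f t' (γ v')))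
    rcases hvv.eq_or_lt with he | hlt
    · subst he
      have hn1 : nm 1 = 0 := (h1.2.1 1).2 rfl
      have k := core (γ v) 1 0 t t' x x' le_rfl (by positivity) (by rw [hn1, mul_zero])
        (by unfold Jd; simp) (by unfold Wd; simp) (by simp) ht ht' hx hx'
      rw [mul_one] at k
      rw [sub_self, abs_zero]
      refine k.trans (mul_le_mul_of_nonneg_right ?_ hn)
      linarith
    · have habs : |v - v'| = v' - v := by
        rw [abs_sub_comm, abs_of_pos (by linarith)]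
      rw [habs] at hvr
      rw [habs]
      have hD := NCU_D K C1 X γ hK hC hX hU v v' hv.1 hlt hv'.2 (by
        rw [← hL]
        have : 100 * L ^ 2 * (C1 * (v' - v)) = 100 * L ^ 2 * C1 * (v' - v) := by ring
        rw [this]
        exact (mul_le_mul_of_nonneg_left hvr z2).trans hLr)
      rw [← hL] at hD
      obtain ⟨c1, c2, c3, c4, c5⟩ := hU.cone v v' hv.1 hlt hv'.2 _ rfl
      have hgD : γ v' = γ v * ((γ v)⁻¹ * γ v') := by rw [mul_inv_cancel_left]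
      obtain ⟨D, hDd⟩ : ∃ D, D = (γ v)⁻¹ * γ v' := ⟨_, rfl⟩
      rw [← hDd] at hD c1 c2 c3 c4 c5 hgD
      rw [hgD] at hn
      rw [hgD]
      have k1 : 0 ≤ (v' - v) / C1 := div_nonneg (by linarith) (by linarith)
      have k2 : 0 ≤ Jd X (γ v) D := k1.trans c1
      have k3 : 0 ≤ Wd X (γ v) D := by
        by_contra hc
        push Not at hc
        have := mul_neg_of_pos_of_neg (by linarith : 0 < C1) hc
        linarith
      have hCB : C1 ≤ B := hLC.trans hBL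
      have k := core (γ v) D (Jd X (γ v) D) t t' x x' k2
        (c2.trans (mul_le_mul hCB hvr (by linarith) (by linarith)))
        (hD.trans (mul_le_mul_of_nonneg_right hBL k2)) rfl
        (c3.trans (mul_le_mul_of_nonneg_right hCB k3))
        (c5.trans (mul_le_mul_of_nonneg_right hCB k2)) ht ht' hx hx'
      have hMC : M * nm ((SbN ε X x (X.f t (γ v)))⁻¹ * SbN ε X x' (X.f t' (γ v * D))) ≤
          C * nm ((SbN ε X x (X.f t (γ v)))⁻¹ * SbN ε X x' (X.f t' (γ v * D))) :=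
        mul_le_mul_of_nonneg_right (by linarith) hn
      refine max_le ?_ ((le_max_right _ _).trans (k.trans hMC))
      have k5 : Jd X (γ v) D ≤ M * nm ((SbN ε X x (X.f t (γ v)))⁻¹ * SbN ε X x' (X.f t' (γ v * D))) :=
        (le_max_left _ _).trans k
      rw [div_le_iff₀ (by linarith)] at c1
      have k6 : Jd X (γ v) D * C1 ≤ M * nm ((SbN ε X x (X.f t (γ v)))⁻¹ * SbN ε X x' (X.f t' (γ v * D))) * C1 :=
        mul_le_mul_of_nonneg_right k5 (by linarith)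
      have k7 : M * nm ((SbN ε X x (X.f t (γ v)))⁻¹ * SbN ε X x' (X.f t' (γ v * D))) * C1 =
          C1 * M * nm ((SbN ε X x (X.f t (γ v)))⁻¹ * SbN ε X x' (X.f t' (γ v * D))) := by ring
      have k8 : C1 * M * nm ((SbN ε X x (X.f t (γ v)))⁻¹ * SbN ε X x' (X.f t' (γ v * D))) ≤
          C * nm ((SbN ε X x (X.f t (γ v)))⁻¹ * SbN ε X x' (X.f t' (γ v * D))) :=
        mul_le_mul_of_nonneg_right (by linarith) hn
      linarith
  intro v v' t t' x x' hv hv' hvr ht ht' hx hx'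
  rw [← hr] at hvr ht ht' hx hx'
  rcases le_total v v' with h | h
  · exact main v v' t t' x x' hv hv' h hvr ht ht' hx hx'
  · have := main v' v t' t x' x hv' hv h (by rw [abs_sub_comm]; exact hvr) ht' ht hx' hx
    rw [abs_sub_comm v' v, abs_sub_comm t' t, abs_sub_comm x' x] at this
    refine this.trans (le_of_eq ?_)
    rw [← ni]
    congr 2
    group

end Pool.Agent.VNE
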